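import Pool.Agent.W788.NV.Defs

/-!
# Project NV: the statements of the parts
-/

namespace Pool.Agent.W788.NV

open Finset

/-- MK: basic facts on the semigroups `sg` -/
structure MK : Prop where
  zero : ∀ (S ι : Type) [Fintype S] [DecidableEq S] [Fintype ι] (r : ι → ℝ) (m : ι → S → S)
    (F : S → ℝ), sg r m 0 F = F
  add : ∀ (S ι : Type) [Fintype S] [DecidableEq S] [Fintype ι] (r : ι → ℝ) (m : ι → S → S)
    (F : S → ℝ) (s t : ℝ), sg r m (s + t) F = sg r m s (sg r m t F)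
  deriv : ∀ (S ι : Type) [Fintype S] [DecidableEq S] [Fintype ι] (r : ι → ℝ) (m : ι → S → S)
    (F : S → ℝ) (x : S) (t : ℝ), HasDerivAt (fun t => sg r m t F x) (sg r m t (gf r m F) x) t
  comm : ∀ (S ι : Type) [Fintype S] [DecidableEq S] [Fintype ι] (r : ι → ℝ) (m : ι → S → S)
    (F : S → ℝ) (t : ℝ), sg r m t (gf r m F) = gf r m (sg r m t F)
  lin : ∀ (S ι κ : Type) [Fintype S] [DecidableEq S] [Fintype ι] [Fintype κ] (r : ι → ℝ)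
    (m : ι → S → S) (c : κ → ℝ) (F : κ → S → ℝ) (x : S) (t : ℝ),
    sg r m t (fun y => ∑ k, c k * F k y) x = ∑ k, c k * sg r m t (F k) x
  cst : ∀ (S ι : Type) [Fintype S] [DecidableEq S] [Fintype ι] (r : ι → ℝ) (m : ι → S → S)
    (c : ℝ) (x : S) (t : ℝ), sg r m t (fun _ => c) x = c
  mono : ∀ (S ι : Type) [Fintype S] [DecidableEq S] [Fintype ι] (r : ι → ℝ) (m : ι → S → S)
    (F H : S → ℝ) (x : S) (t : ℝ), (∀ e, 0 ≤ r e) → 0 ≤ t → (∀ y, F y ≤ H y) →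
    sg r m t F x ≤ sg r m t H x
  cs : ∀ (S ι : Type) [Fintype S] [DecidableEq S] [Fintype ι] (r : ι → ℝ) (m : ι → S → S)
    (F H : S → ℝ) (x : S) (t : ℝ), (∀ e, 0 ≤ r e) → 0 ≤ t →
    (sg r m t (fun y => F y * H y) x) ^ 2 ≤
      sg r m t (fun y => F y ^ 2) x * sg r m t (fun y => H y ^ 2) x

/-- IN: intertwining -/
def S_IN : Prop := ∀ (S S' ι : Type) [Fintype S] [DecidableEq S] [Fintype S'] [DecidableEq S']
    [Fintype ι] (r : ι → ℝ) (m : ι → S → S) (m' : ι → S' → S') (π : S → S'),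
    (∀ e x, π (m e x) = m' e (π x)) → ∀ (F : S' → ℝ) (x : S) (t : ℝ),
    sg r m t (fun y => F (π y)) x = sg r m' t F (π x)

/-- LR: random walk on maps by right and by left multiplication have the same law -/
def S_LR : Prop := ∀ (Ω ι : Type) [Fintype Ω] [DecidableEq Ω] [Fintype ι] (r : ι → ℝ)
    (f : ι → Ω → Ω) (F : (Ω → Ω) → ℝ) (t : ℝ),
    sg r (fun e (Φ : Ω → Ω) => (fun x => Φ (f e x))) t F id =
      sg r (fun e (Φ : Ω → Ω) => (fun x => f e (Φ x))) t F id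

/-- EXP: exponential bounds from the generator -/
def S_EXP : Prop := ∀ (S ι : Type) [Fintype S] [DecidableEq S] [Fintype ι] (r : ι → ℝ)
    (m : ι → S → S) (F : S → ℝ) (c : ℝ) (x : S) (t : ℝ), (∀ e, 0 ≤ r e) → 0 ≤ t →
    (∀ y, gf r m F y ≤ c * F y) → sg r m t F x ≤ Real.exp (c * t) * F x

/-- VAR: derivative of the energy -/
def S_VAR : Prop := ∀ (S ι : Type) [Fintype S] [DecidableEq S] [Fintype ι] (r : ι → ℝ)
    (m : ι → S → S) (F : S → ℝ) (x : S) (s τ : ℝ),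
    HasDerivAt (fun τ => sg r m τ (fun y => (sg r m (s - τ) F y) ^ 2) x)
      (sg r m τ (gam r m (sg r m (s - τ) F)) x) τ

/-- GEN: the generator matrix is the one of the moves -/
def S_GEN : Prop := ∀ (V : Type) [Fintype V] [DecidableEq V] (G : SimpleGraph V) (q : ℕ) (θ : ℝ),
    gen G q θ = mgen (mrate G q θ) (act (V := V) (q := q))

/-- TOT: the total rate at every site is 1 -/
def S_TOT : Prop := ∀ (V : Type) [Fintype V] [DecidableEq V] (G : SimpleGraph V) (q : ℕ) (θ : ℝ),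
    1 ≤ q → 0 ≤ θ → θ ≤ 1 → (∀ v, 1 ≤ dg G v) →
    (∀ e : (V × Fin q) ⊕ (V × V), 0 ≤ mrate G q θ e) ∧
    ∀ c : V → ℝ, ∑ e : (V × Fin q) ⊕ (V × V), mrate G q θ e * c (site e) = ∑ v, c v

/-- DL: dependence sets under left multiplication -/
def S_DL : Prop := ∀ (V : Type) [Fintype V] [DecidableEq V] (q : ℕ) (Φ : Mp V q) (v : V),
    (∀ (w : V) (a : Fin q), dep (mL (Sum.inl (w, a)) Φ) v = (dep Φ v).erase w) ∧
    (∀ w u : V, u ∈ dep Φ v → dep (mL (Sum.inr (w, u)) Φ) v = insert w (dep Φ v)) ∧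
    (∀ w u : V, u ∉ dep Φ v → dep (mL (Sum.inr (w, u)) Φ) v = (dep Φ v).erase w) ∧
    dep (id : Mp V q) v ⊆ {v}

/-- DRF: the weighted number of descendants decays at rate θ -/
def S_DRF : Prop := ∀ (V : Type) [Fintype V] [DecidableEq V] (G : SimpleGraph V) (q : ℕ) (θ : ℝ),
    1 ≤ q → 0 ≤ θ → θ ≤ 1 → (∀ v, 1 ≤ dg G v) → ∀ (Φ : Mp V q) (v : V),
    gf (mrate G q θ) (mL (V := V) (q := q)) (fun Φ => wdep G Φ v) Φ = -θ * wdep G Φ v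

/-- EXM: exponential moments are supermartingales -/
def S_EXM : Prop := ∀ (V : Type) [Fintype V] [DecidableEq V] (G : SimpleGraph V) (q : ℕ) (θ : ℝ)
    (Δ : ℕ) (l : ℝ),
    1 ≤ q → 0 < θ → θ ≤ 1 → (∀ v, 1 ≤ dg G v) → (∀ v, dg G v ≤ Δ) → 0 ≤ l → 2 * l * Δ ≤ θ →
    ∀ (Φ : Mp V q) (v : V),
    gf (mrate G q θ) (mL (V := V) (q := q)) (fun Φ => Real.exp (l * wdep G Φ v)) Φ ≤ 0

/-- BND: consequences for the random map at time `t` -/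
def S_BND : Prop := ∀ (V : Type) [Fintype V] [DecidableEq V] (G : SimpleGraph V) (q : ℕ) (θ : ℝ)
    (Δ : ℕ), 1 ≤ q → 0 < θ → θ ≤ 1 → (∀ v, 1 ≤ dg G v) → (∀ v, dg G v ≤ Δ) →
    ∀ (v : V) (t : ℝ), 0 ≤ t →
    ex G q θ t (fun Φ => wdep G Φ v) ≤ Δ * Real.exp (-θ * t) ∧
    (∀ l : ℝ, 0 ≤ l → 2 * l * Δ ≤ θ →
      ex G q θ t (fun Φ => Real.exp (l * wdep G Φ v)) ≤ Real.exp (l * Δ)) ∧
    (∀ M : ℝ, 0 ≤ M → ex G q θ t (fun Φ => if M < ((dep Φ v).card : ℝ) then 1 else 0) ≤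
      Real.exp (θ / 2 - θ * M / (2 * Δ))) ∧
    ex G q θ t (fun Φ => ((dep Φ v).card : ℝ) ^ 2) ≤ 8 * Δ ^ 2 / θ ^ 2 * Real.exp (θ / 2) ∧
    ex G q θ t (fun Φ => if (dep Φ v).Nonempty then 1 else 0) ≤ Δ * Real.exp (-θ * t)

/-- LOC: a move at a site all of whose descendants are forgotten is not seen -/
def S_LOC : Prop := ∀ (V : Type) [Fintype V] [DecidableEq V] (q : ℕ) (Ψ Φ : Mp V q)
    (e : (V × Fin q) ⊕ (V × V)), (∀ w ∈ dep Φ (site e), dep Ψ w = ∅) →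
    ∀ x, Ψ (Φ (act e x)) = Ψ (Φ x)

/-- EVA: evaluation of the random map: the law of `Φ_t x` is the law of the process from `x`,
and shifts of the right random walk -/
def S_EVA : Prop := ∀ (V : Type) [Fintype V] [DecidableEq V] (G : SimpleGraph V) (q : ℕ) (θ t : ℝ),
    (∀ (h : (V → Fin q) → ℝ) (x : V → Fin q), ex G q θ t (fun Φ => h (Φ x)) = pt G q θ t h x) ∧
    (∀ (F : Mp V q → ℝ) (Φ : Mp V q), sg (mrate G q θ) (mR (V := V) (q := q)) t F Φ =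
      ex G q θ t (fun Θ => F (fun x => Φ (Θ x))))

/-- MAIN: the variance inequality -/
def S_MAIN : Prop := ∀ (V : Type) [Fintype V] [DecidableEq V] (G : SimpleGraph V) (q : ℕ) (θ : ℝ)
    (Δ : ℕ), 1 ≤ q → 0 < θ → θ ≤ 1 → (∀ v, 1 ≤ dg G v) → (∀ v, dg G v ≤ Δ) →
    ∀ (s r M : ℝ) (g : (V → Fin q) → ℝ) (x0 : V → Fin q), 0 ≤ s → 0 ≤ r → 0 ≤ M →
    (∀ x, 0 ≤ g x ∧ g x ≤ 1) →
    pt G q θ s (fun x => (pt G q θ r g x) ^ 2) x0 - (pt G q θ s (pt G q θ r g) x0) ^ 2 ≤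
      Δ * Real.exp (-θ * r) * M +
        s * Fintype.card V * Real.exp (θ / 2 - θ * M / (2 * Δ))

/-- LIN: variance of functions with bounded sensitivities -/
def S_LIN : Prop := ∀ (V : Type) [Fintype V] [DecidableEq V] (G : SimpleGraph V) (q : ℕ) (θ : ℝ)
    (Δ : ℕ), 1 ≤ q → 0 < θ → θ ≤ 1 → (∀ v, 1 ≤ dg G v) → (∀ v, dg G v ≤ Δ) →
    ∀ (t B : ℝ) (h : (V → Fin q) → ℝ) (x0 : V → Fin q), 0 ≤ t → 0 ≤ B →
    (∀ (x y : V → Fin q), |h x - h y| ≤ B * ((univ.filter (fun w => x w ≠ y w)).card : ℝ)) →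
    pt G q θ t (fun x => (h x) ^ 2) x0 - (pt G q θ t h x0) ^ 2 ≤
      t * Fintype.card V * B ^ 2 * (8 * Δ ^ 2 / θ ^ 2 * Real.exp (θ / 2))

/-- CHB: total variation and variances -/
def S_CHB : Prop := ∀ (S : Type) [Fintype S] (μ ν f : S → ℝ), IsPr μ → IsPr ν →
    (1 - tv μ ν) * (mean μ f - mean ν f) ^ 2 ≤ 2 * (vr μ f + vr ν f)

/-- LAW: the law at time `t` and the semigroup; stationary vectors are invariant -/
def S_LAW : Prop := ∀ (V : Type) [Fintype V] [DecidableEq V] (G : SimpleGraph V) (q : ℕ) (θ : ℝ),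
    1 ≤ q → 0 < θ → θ ≤ 1 → (∀ v, 1 ≤ dg G v) →
    (∀ (x0 : V → Fin q) (t : ℝ), 0 ≤ t → IsPr (law G q θ x0 t)) ∧
    (∀ (x0 : V → Fin q) (t : ℝ) (h : (V → Fin q) → ℝ),
      mean (law G q θ x0 t) h = pt G q θ t h x0) ∧
    (∀ (μ : (V → Fin q) → ℝ), IsStat G q θ μ → ∀ (t : ℝ) (h : (V → Fin q) → ℝ),
      mean μ (pt G q θ t h) = mean μ h)

/-- OSC: the oscillation of the semigroup decays -/
def S_OSC : Prop := ∀ (V : Type) [Fintype V] [DecidableEq V] (G : SimpleGraph V) (q : ℕ) (θ : ℝ)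
    (Δ : ℕ), 1 ≤ q → 0 < θ → θ ≤ 1 → (∀ v, 1 ≤ dg G v) → (∀ v, dg G v ≤ Δ) →
    ∀ (t c : ℝ) (h : (V → Fin q) → ℝ) (x y : V → Fin q), 0 ≤ t → (∀ z z', h z - h z' ≤ c) →
    pt G q θ t h x - pt G q θ t h y ≤ c * (Fintype.card V * Δ * Real.exp (-θ * t))

/-- STA: existence and uniqueness of the stationary law -/
def S_STA : Prop := ∀ (V : Type) [Fintype V] [DecidableEq V] (G : SimpleGraph V) (q : ℕ) (θ : ℝ),
    1 ≤ q → 0 < θ → θ ≤ 1 → (∀ v, 1 ≤ dg G v) → ∃! μ : (V → Fin q) → ℝ, IsStat G q θ μ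

/-- ONE: evolution of the one-point biases -/
def S_ONE : Prop := ∀ (V : Type) [Fintype V] [DecidableEq V] (G : SimpleGraph V) (q : ℕ) (θ : ℝ),
    2 ≤ q → 0 < θ → θ ≤ 1 → (∀ v, 1 ≤ dg G v) → ∀ (x0 : V → Fin q) (a : Fin q) (t : ℝ), 0 ≤ t →
    (Fintype.card V : ℝ) * Real.exp (-4 * t) / q ^ 2 ≤
      ∑ v, (dg G v : ℝ) * (pt G q θ t (fun x => if x v = a then 1 else 0) x0 - 1 / q) ^ 2 ∧
    ∀ μ, IsStat G q θ μ → ∀ v, mean μ (fun x => if x v = a then 1 else 0) = 1 / q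

/-- WIN: the window inequality -/
def S_WIN : Prop := ∀ (V : Type) [Fintype V] [DecidableEq V] (G : SimpleGraph V) (q : ℕ) (θ : ℝ)
    (Δ : ℕ), 1 ≤ q → 0 < θ → θ ≤ 1 → (∀ v, 1 ≤ dg G v) → (∀ v, dg G v ≤ Δ) →
    ∀ (x0 : V → Fin q) (μ : (V → Fin q) → ℝ) (s r u M : ℝ), IsStat G q θ μ →
    0 ≤ s → 0 ≤ r → 0 ≤ u → 0 ≤ M →
    (tv (law G q θ x0 (s + r)) μ) ^ 2 * (1 - tv (law G q θ x0 s) μ) ≤
      2 * (2 * (Δ * Real.exp (-θ * r) * M) +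
        (s + u) * Fintype.card V * Real.exp (θ / 2 - θ * M / (2 * Δ)) +
        3 * (Fintype.card V * Δ * Real.exp (-θ * u)))

/-- LOW: the lower bound -/
def S_LOW : Prop := ∀ (V : Type) [Fintype V] [DecidableEq V] (G : SimpleGraph V) (q : ℕ) (θ : ℝ)
    (Δ : ℕ), 2 ≤ q → 0 < θ → θ ≤ 1 → (∀ v, 1 ≤ dg G v) → (∀ v, dg G v ≤ Δ) →
    ∀ (x0 : V → Fin q) (μ : (V → Fin q) → ℝ) (t u : ℝ), IsStat G q θ μ → 0 ≤ t → 0 ≤ u →
    (1 - tv (law G q θ x0 t) μ) * (Fintype.card V * Real.exp (-4 * t) / q ^ 2) ^ 2 ≤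
      2 * ((t + u) * Fintype.card V * Δ ^ 2 * (8 * Δ ^ 2 / θ ^ 2 * Real.exp (θ / 2)) +
        5 * (Fintype.card V * Δ) ^ 2 * (Fintype.card V * Δ * Real.exp (-θ * u)))

/-- UPP: the law is near the stationary law at time of order `log n` -/
def S_UPP : Prop := ∀ (V : Type) [Fintype V] [DecidableEq V] (G : SimpleGraph V) (q : ℕ) (θ : ℝ)
    (Δ : ℕ), 1 ≤ q → 0 < θ → θ ≤ 1 → (∀ v, 1 ≤ dg G v) → (∀ v, dg G v ≤ Δ) →
    ∀ (x0 : V → Fin q) (μ : (V → Fin q) → ℝ) (t : ℝ), IsStat G q θ μ → 0 ≤ t →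
    tv (law G q θ x0 t) μ ≤ Fintype.card V * Δ * Real.exp (-θ * t)

/-- FIN1: the window, uniformly over all graphs of bounded degree -/
def S_FIN1 : Prop := ∀ (q : ℕ) (θ : ℝ) (Δ : ℕ) (ε : ℝ), 2 ≤ q → 0 < θ → θ ≤ 1 → 0 < ε → ε < 1 →
    ∃ C : ℝ, ∀ (V : Type) [Fintype V] [DecidableEq V] (G : SimpleGraph V) (x0 : V → Fin q)
      (μ : (V → Fin q) → ℝ), (∀ v, 1 ≤ dg G v) → (∀ v, dg G v ≤ Δ) → 3 ≤ Fintype.card V →
      IsStat G q θ μ →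
      tmix G q θ x0 μ ε - tmix G q θ x0 μ (1 - ε) ≤
        Real.log (Real.log (Fintype.card V)) / θ + C

/-- FIN2: the order of the mixing time from below, uniformly over all graphs of bounded degree -/
def S_FIN2 : Prop := ∀ (q : ℕ) (θ : ℝ) (Δ : ℕ), 2 ≤ q → 0 < θ → θ ≤ 1 →
    ∀ ε : ℝ, 0 < ε → ε < 1 →
    ∃ C : ℝ, ∀ (V : Type) [Fintype V] [DecidableEq V] (G : SimpleGraph V) (x0 : V → Fin q)
      (μ : (V → Fin q) → ℝ), (∀ v, 1 ≤ dg G v) → (∀ v, dg G v ≤ Δ) → 3 ≤ Fintype.card V →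
      IsStat G q θ μ →
      (1 / 20) * Real.log (Fintype.card V) - C ≤ tmix G q θ x0 μ ε

end Pool.Agent.W788.NV
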