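import Pool.Agent.W436.NV.Mk
import Pool.Agent.W918.NV.In
import Pool.Agent.W298.NV.Lr
import Pool.Agent.W880.NV.Exp
import Pool.Agent.W880.NV.Var
import Pool.Agent.W419.NV.Gen
import Pool.Agent.W853.NV.DL
import Pool.Agent.W683.NV.Drf
import Pool.Agent.W191.NV.Exm
import Pool.Agent.W490.NV.Bnd
import Pool.Agent.W491.NV.Loc
import Pool.Agent.W597.NV.EVA
import Pool.Agent.W15.NV.Main
import Pool.Agent.W298.NV.Lin
import Pool.Agent.W692.NV.Chb
import Pool.Agent.W214.NV.LAW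
import Pool.Agent.W298.NV.Osc
import Pool.Agent.W906.NV.Sta
import Pool.Agent.W371.NV.One
import Pool.Agent.W381.NV.Win
import Pool.Agent.W585.NV.Low
import Pool.Agent.W300.NV.Upp
import Pool.Agent.W919.NV.Fin1
import Pool.Agent.W538.NV.Fin2

/-! # Assembly of project NV -/

namespace Pool.Agent.W788.NV

open Finset Filter Topology

theorem p_mk : MK := Pool.Agent.W436.NV.mk_
theorem p_in : S_IN := Pool.Agent.W918.NV.in_ p_mk
theorem p_lr : S_LR := Pool.Agent.W298.NV.Lr.lr_ p_mk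
theorem p_exp : S_EXP := Pool.Agent.W880.NV.exp_ p_mk
theorem p_var : S_VAR := Pool.Agent.W880.NV.var_ p_mk
theorem p_gen : S_GEN := Pool.Agent.W419.NV.gen_
theorem p_tot : S_TOT := Pool.Agent.W419.NV.tot_
theorem p_dl : S_DL := Pool.Agent.W853.NV.dl_
theorem p_drf : S_DRF := Pool.Agent.W683.NV.Drf.drf_ p_dl p_tot
theorem p_exm : S_EXM := Pool.Agent.W191.NV.exm_ p_dl p_tot
theorem p_bnd : S_BND := Pool.Agent.W490.NV.bnd_ p_mk p_lr p_exp p_drf p_exm p_dl p_tot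
theorem p_loc : S_LOC := Pool.Agent.W491.NV.loc_
theorem p_eva : S_EVA := Pool.Agent.W597.NV.eva_ p_mk p_in p_lr
theorem p_main : S_MAIN := Pool.Agent.W15.NV.main_ p_mk p_var p_tot p_bnd p_loc p_eva
theorem p_lin : S_LIN := Pool.Agent.W298.NV.Lin.lin_ p_mk p_var p_tot p_bnd p_eva
theorem p_chb : S_CHB := Pool.Agent.W692.NV.chb_
theorem p_law : S_LAW := Pool.Agent.W214.NV.law_ p_mk p_gen p_tot
theorem p_osc : S_OSC := Pool.Agent.W298.NV.Osc.osc_ p_mk p_tot p_bnd p_eva p_loc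
theorem p_sta : S_STA := Pool.Agent.W906.NV.sta_ p_mk p_law p_osc p_tot p_gen
theorem p_one : S_ONE := Pool.Agent.W371.NV.One.one_ p_mk p_law p_tot p_gen
theorem p_win : S_WIN := Pool.Agent.W381.NV.win_ p_mk p_main p_chb p_law p_osc p_tot
theorem p_low : S_LOW := Pool.Agent.W585.NV.Low.low_ p_mk p_lin p_chb p_law p_osc p_one p_tot
theorem p_upp : S_UPP := Pool.Agent.W300.NV.upp_ p_mk p_law p_osc p_tot
theorem p_fin1 : S_FIN1 := Pool.Agent.W919.NV.fin1_ p_win p_upp p_law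
theorem p_fin2 : S_FIN2 := Pool.Agent.W538.NV.fin2_ p_low p_upp

/-- in a connected graph with at least two vertices every vertex has a neighbour -/
theorem dg_pos {V : Type} [Fintype V] (G : SimpleGraph V) (hG : G.Connected)
    (h2 : 2 ≤ Fintype.card V) (v : V) : 1 ≤ dg G v := by
  classical
  have hnt : Nontrivial V := Fintype.one_lt_card_iff_nontrivial.mp (by omega)
  obtain ⟨w, hw⟩ := hG.preconnected.exists_adj_of_nontrivial v
  unfold dg
  have : w ∈ univ.filter (fun w => G.Adj v w) := by simp [hw]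
  have h := Nat.succ_le_of_lt (Finset.card_pos.mpr ⟨w, this⟩)
  simpa using h

/-- the sets defining the mixing times are not empty -/
theorem set_nonempty {V : Type} [Fintype V] [DecidableEq V] (G : SimpleGraph V) (q : ℕ) (θ : ℝ)
    (Δ : ℕ) (hq : 1 ≤ q) (h0 : 0 < θ) (h1 : θ ≤ 1) (hd : ∀ v, 1 ≤ dg G v) (hD : ∀ v, dg G v ≤ Δ)
    (x0 : V → Fin q) (μ : (V → Fin q) → ℝ) (hμ : IsStat G q θ μ) (ε : ℝ) (hε : 0 < ε) :
    {t : ℝ | 0 ≤ t ∧ tv (law G q θ x0 t) μ ≤ ε}.Nonempty := by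
  have hlim : Tendsto (fun t : ℝ => (Fintype.card V : ℝ) * Δ * Real.exp (-θ * t)) atTop (𝓝 0) := by
    have h : Tendsto (fun t : ℝ => Real.exp (-θ * t)) atTop (𝓝 0) := by
      apply Real.tendsto_exp_atBot.comp
      have : Tendsto (fun t : ℝ => θ * t) atTop atTop := tendsto_id.const_mul_atTop h0
      have h2 := tendsto_neg_atTop_atBot.comp this
      refine h2.congr (fun t => ?_)
      simp
    have h3 := h.const_mul ((Fintype.card V : ℝ) * Δ)
    simpa using h3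
  have hev := hlim.eventually (gt_mem_nhds hε)
  obtain ⟨t, ht, ht0⟩ := (hev.and (eventually_ge_atTop (0 : ℝ))).exists
  exact ⟨t, ht0, (p_upp V G q θ Δ hq h0 h1 hd hD x0 μ t hμ ht0).trans ht.le⟩

theorem tmix_anti {V : Type} [Fintype V] [DecidableEq V] (G : SimpleGraph V) (q : ℕ) (θ : ℝ)
    (Δ : ℕ) (hq : 1 ≤ q) (h0 : 0 < θ) (h1 : θ ≤ 1) (hd : ∀ v, 1 ≤ dg G v) (hD : ∀ v, dg G v ≤ Δ)
    (x0 : V → Fin q) (μ : (V → Fin q) → ℝ) (hμ : IsStat G q θ μ) (ε ε' : ℝ) (hε : 0 < ε)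
    (h : ε ≤ ε') : tmix G q θ x0 μ ε' ≤ tmix G q θ x0 μ ε := by
  apply csInf_le_csInf
  · exact ⟨0, fun t ht => ht.1⟩
  · exact set_nonempty G q θ Δ hq h0 h1 hd hD x0 μ hμ ε hε
  · intro t ht
    exact ⟨ht.1, ht.2.trans h⟩

end Pool.Agent.W788.NV
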