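import Mathlib

/-!
# The q-state noisy voter model (project NV, problems MP_1c1c61_pr and MP_2bac73_pr): definitions
-/

namespace Pool.Agent.W788.NV

open Finset

/-! ## finite Markov semigroups given by maps and rates -/

/-- generator matrix of the continuous-time chain that applies the map `m e` at rate `r e` -/
noncomputable def mgen {S ι : Type} [Fintype S] [DecidableEq S] [Fintype ι]
    (r : ι → ℝ) (m : ι → S → S) : Matrix S S ℝ :=
  fun x y => ∑ e, r e * ((if y = m e x then 1 else 0) - (if y = x then 1 else 0))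

/-- the generator acting on functions -/
noncomputable def gf {S ι : Type} [Fintype ι] (r : ι → ℝ) (m : ι → S → S) (F : S → ℝ) : S → ℝ :=
  fun x => ∑ e, r e * (F (m e x) - F x)

/-- carre du champ (twice) -/
noncomputable def gam {S ι : Type} [Fintype ι] (r : ι → ℝ) (m : ι → S → S) (F : S → ℝ) : S → ℝ :=
  fun x => ∑ e, r e * (F (m e x) - F x) ^ 2

/-- the semigroup `exp (t L)` acting on functions -/
noncomputable def sg {S ι : Type} [Fintype S] [DecidableEq S] [Fintype ι]
    (r : ι → ℝ) (m : ι → S → S) (t : ℝ) (F : S → ℝ) : S → ℝ :=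
  Matrix.mulVec (NormedSpace.exp (t • mgen r m)) F

/-! ## the noisy voter model -/

/-- degree of the vertex `v` -/
noncomputable def dg {V : Type} [Fintype V] (G : SimpleGraph V) (v : V) : ℕ := by
  classical
  exact (univ.filter (fun w => G.Adj v w)).card

/-- rate at which the vertex `v` is replaced by the colour `a` in the configuration `x`:
noise (rate `θ/q`) plus `(1-θ)` times the proportion of neighbours with colour `a` -/
noncomputable def rate {V : Type} [Fintype V] (G : SimpleGraph V) (q : ℕ) (θ : ℝ)
    (x : V → Fin q) (v : V) (a : Fin q) : ℝ := by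
  classical
  exact θ / q + (1 - θ) * (((univ.filter (fun w => G.Adj v w ∧ x w = a)).card : ℝ) / (dg G v : ℝ))

/-- generator matrix of the `q`-state noisy voter model with noise `θ` on `G` -/
noncomputable def gen {V : Type} [Fintype V] [DecidableEq V] (G : SimpleGraph V) (q : ℕ) (θ : ℝ) :
    Matrix (V → Fin q) (V → Fin q) ℝ :=
  fun x y => ∑ v, ∑ a, rate G q θ x v a *
    ((if y = Function.update x v a then 1 else 0) - (if y = x then 1 else 0))

/-- law at time `t` of the noisy voter model started from `x0` -/
noncomputable def law {V : Type} [Fintype V] [DecidableEq V] (G : SimpleGraph V) (q : ℕ) (θ : ℝ)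
    (x0 : V → Fin q) (t : ℝ) : (V → Fin q) → ℝ :=
  fun y => NormedSpace.exp (t • gen G q θ) x0 y

/-- stationary probability vectors of the noisy voter model -/
def IsStat {V : Type} [Fintype V] [DecidableEq V] (G : SimpleGraph V) (q : ℕ) (θ : ℝ)
    (μ : (V → Fin q) → ℝ) : Prop :=
  (∀ x, 0 ≤ μ x) ∧ ∑ x, μ x = 1 ∧ Matrix.vecMul μ (gen G q θ) = 0

/-- total variation distance of two probability vectors -/
noncomputable def tv {S : Type} [Fintype S] (μ ν : S → ℝ) : ℝ := (1 / 2) * ∑ x, |μ x - ν x|

/-- mixing time from the initial state `x0` to the law `μ` -/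
noncomputable def tmix {V : Type} [Fintype V] [DecidableEq V] (G : SimpleGraph V) (q : ℕ) (θ : ℝ)
    (x0 : V → Fin q) (μ : (V → Fin q) → ℝ) (ε : ℝ) : ℝ :=
  sInf {t : ℝ | 0 ≤ t ∧ tv (law G q θ x0 t) μ ≤ ε}

/-! ## random maps -/

/-- elementary moves: `inl (v, a)` puts the colour `a` at `v`, `inr (v, w)` copies from `w` to `v` -/
def act {V : Type} [DecidableEq V] {q : ℕ} :
    (V × Fin q) ⊕ (V × V) → (V → Fin q) → (V → Fin q)
  | .inl p, x => Function.update x p.1 p.2
  | .inr p, x => Function.update x p.1 (x p.2)

/-- the site at which a move acts -/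
def site {V : Type} {q : ℕ} : (V × Fin q) ⊕ (V × V) → V
  | .inl p => p.1
  | .inr p => p.1

/-- rates of the moves -/
noncomputable def mrate {V : Type} [Fintype V] (G : SimpleGraph V) (q : ℕ) (θ : ℝ) :
    (V × Fin q) ⊕ (V × V) → ℝ
  | .inl _ => θ / q
  | .inr p => by
      classical
      exact if G.Adj p.1 p.2 then (1 - θ) / (dg G p.1 : ℝ) else 0

/-- maps of the configuration space -/
abbrev Mp (V : Type) (q : ℕ) : Type := (V → Fin q) → (V → Fin q)

/-- right multiplication by a move -/
def mR {V : Type} [DecidableEq V] {q : ℕ} (e : (V × Fin q) ⊕ (V × V)) (Φ : Mp V q) : Mp V q :=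
  fun x => Φ (act e x)

/-- left multiplication by a move -/
def mL {V : Type} [DecidableEq V] {q : ℕ} (e : (V × Fin q) ⊕ (V × V)) (Φ : Mp V q) : Mp V q :=
  fun x => act e (Φ x)

/-- expectation at time `t` of a function of the random map of the noisy voter model
(random walk by right multiplication, started from the identity) -/
noncomputable def ex {V : Type} [Fintype V] [DecidableEq V] (G : SimpleGraph V) (q : ℕ) (θ : ℝ)
    (t : ℝ) (F : Mp V q → ℝ) : ℝ :=
  sg (mrate G q θ) (mR (V := V) (q := q)) t F id

/-- output sites which depend on the input site `v` -/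
noncomputable def dep {V : Type} [Fintype V] [DecidableEq V] {q : ℕ} (Φ : Mp V q) (v : V) :
    Finset V := by
  classical
  exact univ.filter (fun w => ∃ x a, Φ (Function.update x v a) w ≠ Φ x w)

/-- number of output sites depending on `v`, weighted by degrees -/
noncomputable def wdep {V : Type} [Fintype V] [DecidableEq V] {q : ℕ} (G : SimpleGraph V)
    (Φ : Mp V q) (v : V) : ℝ := ∑ w ∈ dep Φ v, (dg G w : ℝ)

/-- semigroup of the noisy voter model acting on functions -/
noncomputable def pt {V : Type} [Fintype V] [DecidableEq V] (G : SimpleGraph V) (q : ℕ) (θ : ℝ)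
    (t : ℝ) (h : (V → Fin q) → ℝ) : (V → Fin q) → ℝ :=
  sg (mrate G q θ) (act (V := V) (q := q)) t h

/-- mean of `f` under the probability vector `μ` -/
noncomputable def mean {S : Type} [Fintype S] (μ f : S → ℝ) : ℝ := ∑ x, μ x * f x

/-- variance of `f` under the probability vector `μ` -/
noncomputable def vr {S : Type} [Fintype S] (μ f : S → ℝ) : ℝ :=
  mean μ (fun x => f x ^ 2) - (mean μ f) ^ 2

/-- probability vectors -/
def IsPr {S : Type} [Fintype S] (μ : S → ℝ) : Prop := (∀ x, 0 ≤ μ x) ∧ ∑ x, μ x = 1

end Pool.Agent.W788.NV
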