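import Pool.Agent.W788.NV.Asm

/-! # Cutoff from the window and the order of the mixing times -/

namespace Pool.Agent.W788.NV

open Finset Filter Topology

theorem cutoff (q : ℕ) (θ : ℝ) (Δ : ℕ) (V : ℕ → Type) [∀ n, Fintype (V n)]
    [∀ n, DecidableEq (V n)] (G : ∀ n, SimpleGraph (V n)) (x0 : ∀ n, V n → Fin q)
    (μ : ∀ n, (V n → Fin q) → ℝ) (hq : 2 ≤ q) (h0 : 0 < θ) (h1 : θ < 1)
    (hcard : ∀ n, Fintype.card (V n) = n) (hG : ∀ n, 2 ≤ n → (G n).Connected)
    (hD : ∀ n v, dg (G n) v ≤ Δ) (hμ : ∀ n, 2 ≤ n → IsStat (G n) q θ (μ n)) :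
    ∃ T : ℕ → ℝ, Tendsto T atTop atTop ∧ ∀ ε : ℝ, 0 < ε → ε < 1 →
      Tendsto (fun n => tmix (G n) q θ (x0 n) (μ n) ε / T n) atTop (𝓝 1) := by
  have hd : ∀ n, 2 ≤ n → ∀ v, 1 ≤ dg (G n) v := fun n hn v =>
    dg_pos (G n) (hG n hn) (by rw [hcard]; exact hn) v
  obtain ⟨C0, hC0⟩ := p_fin2 q θ Δ hq h0 h1.le (1 / 2) (by norm_num) (by norm_num)
  have hlog : Tendsto (fun n : ℕ => Real.log (n : ℝ)) atTop atTop :=
    Real.tendsto_log_atTop.comp tendsto_natCast_atTop_atTop
  have hlow : Tendsto (fun n : ℕ => (1 / 20) * Real.log (n : ℝ) - C0) atTop atTop :=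
    tendsto_atTop_add_const_right _ _ (hlog.const_mul_atTop (by norm_num))
  have hTlow : ∀ n : ℕ, 3 ≤ n → (1 / 20) * Real.log (n : ℝ) - C0 ≤
      tmix (G n) q θ (x0 n) (μ n) (1 / 2) := by
    intro n hn
    have := hC0 (V n) (G n) (x0 n) (μ n) (hd n (by omega)) (hD n) (by rw [hcard]; exact hn)
      (hμ n (by omega))
    rwa [hcard] at this
  refine ⟨fun n => tmix (G n) q θ (x0 n) (μ n) (1 / 2), ?_, ?_⟩
  · refine tendsto_atTop_mono' _ ?_ hlow
    filter_upwards [eventually_ge_atTop 3] with n hn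
    exact hTlow n hn
  intro ε hε hε1
  obtain ⟨C1, hC1⟩ := p_fin1 q θ Δ ε hq h0 h1.le hε hε1
  obtain ⟨C2, hC2⟩ := p_fin1 q θ Δ (1 - ε) hq h0 h1.le (by linarith) (by linarith)
  set W : ℕ → ℝ := fun n => Real.log (Real.log (n : ℝ)) / θ + (|C1| + |C2|) with hW
  -- the difference
  have hdiff : ∀ n : ℕ, 3 ≤ n → |tmix (G n) q θ (x0 n) (μ n) ε -
      tmix (G n) q θ (x0 n) (μ n) (1 / 2)| ≤ W n := by
    intro n hn
    have hdn := hd n (by omega)
    have hμn := hμ n (by omega)
    have e1 := hC1 (V n) (G n) (x0 n) (μ n) hdn (hD n) (by rw [hcard]; exact hn) hμn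
    have e2 := hC2 (V n) (G n) (x0 n) (μ n) hdn (hD n) (by rw [hcard]; exact hn) hμn
    rw [hcard] at e1 e2
    have hsub : (1 : ℝ) - (1 - ε) = ε := by ring
    rw [hsub] at e2
    have hanti := tmix_anti (G n) q θ Δ (by omega) h0 h1.le hdn (hD n) (x0 n) (μ n) hμn
    have hlln : 0 ≤ Real.log (Real.log (n : ℝ)) := by
      apply Real.log_nonneg
      have h3 : (3 : ℝ) ≤ (n : ℝ) := by exact_mod_cast hn
      rw [Real.le_log_iff_exp_le (by linarith)]
      have := Real.exp_one_lt_d9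
      linarith
    have hll : 0 ≤ Real.log (Real.log (n : ℝ)) / θ := div_nonneg hlln h0.le
    have a1 := le_abs_self C1
    have a2 := le_abs_self C2
    have a3 := abs_nonneg C1
    have a4 := abs_nonneg C2
    rcases le_total ε (1 / 2) with h | h
    · have b1 := hanti ε (1 / 2) hε h
      have b2 := hanti (1 / 2) (1 - ε) (by norm_num) (by linarith)
      rw [abs_of_nonneg (by linarith)]
      simp only [hW]
      linarith
    · have b1 := hanti (1 / 2) ε (by norm_num) h
      have b2 := hanti (1 - ε) (1 / 2) (by linarith) (by linarith)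
      rw [abs_of_nonpos (by linarith)]
      simp only [hW]
      linarith
  -- the quotient tends to zero
  have hq0 : Tendsto (fun n : ℕ => W n / ((1 / 20) * Real.log (n : ℝ) - C0)) atTop (𝓝 0) := by
    have hx : Tendsto (fun x : ℝ => (Real.log x / θ + (|C1| + |C2|)) / ((1 / 20) * x - C0))
        atTop (𝓝 0) := by
      have h1' : Tendsto (fun x : ℝ => Real.log x / x) atTop (𝓝 0) := by
        have := Real.isLittleO_log_id_atTop.tendsto_div_nhds_zero
        simpa using this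
      have h2' : Tendsto (fun x : ℝ => (1 : ℝ) / x) atTop (𝓝 0) := by
        simpa using tendsto_inv_atTop_zero (𝕜 := ℝ)
      have hnum : Tendsto (fun x : ℝ => (Real.log x / x) / θ + (|C1| + |C2|) * (1 / x)) atTop
          (𝓝 (0 / θ + (|C1| + |C2|) * 0)) := (h1'.div_const θ).add (h2'.const_mul _)
      have hden : Tendsto (fun x : ℝ => (1 / 20 : ℝ) - C0 * (1 / x)) atTop
          (𝓝 ((1 / 20 : ℝ) - C0 * 0)) := tendsto_const_nhds.sub (h2'.const_mul _)
      have hdiv := hnum.div hden (by norm_num)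
      have hz : (0 / θ + (|C1| + |C2|) * 0) / ((1 / 20 : ℝ) - C0 * 0) = 0 := by simp
      rw [hz] at hdiv
      refine hdiv.congr' ?_
      filter_upwards [eventually_gt_atTop 0] with x hx
      have hx' : x ≠ 0 := hx.ne'
      simp only [Pi.div_apply]
      by_cases hc : (1 / 20) * x - C0 = 0
      · have : (1 / 20 : ℝ) - C0 * (1 / x) = 0 := by
          have : (1 / 20 : ℝ) - C0 * (1 / x) = ((1 / 20) * x - C0) / x := by
            field_simp
          rw [this, hc, zero_div]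
        rw [hc, this, div_zero, div_zero]
      · have e : (1 / 20 : ℝ) - C0 * (1 / x) = ((1 / 20) * x - C0) / x := by
          field_simp
        have e2 : (Real.log x / x) / θ + (|C1| + |C2|) * (1 / x) =
            (Real.log x / θ + (|C1| + |C2|)) / x := by
          field_simp
        rw [e, e2]
        rw [div_div_div_cancel_right₀ hx']
    exact hx.comp hlog
  have hpos : ∀ᶠ n : ℕ in atTop, 0 < (1 / 20) * Real.log (n : ℝ) - C0 :=
    hlow.eventually_gt_atTop 0
  rw [tendsto_iff_norm_sub_tendsto_zero]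
  refine squeeze_zero' (Eventually.of_forall fun n => norm_nonneg _) ?_ hq0
  filter_upwards [hpos, eventually_ge_atTop 3] with n hn h3
  have hT := hTlow n h3
  have hTpos : 0 < tmix (G n) q θ (x0 n) (μ n) (1 / 2) := lt_of_lt_of_le hn hT
  have hWn : 0 ≤ W n := (abs_nonneg _).trans (hdiff n h3)
  rw [Real.norm_eq_abs]
  have : tmix (G n) q θ (x0 n) (μ n) ε / tmix (G n) q θ (x0 n) (μ n) (1 / 2) - 1 =
      (tmix (G n) q θ (x0 n) (μ n) ε - tmix (G n) q θ (x0 n) (μ n) (1 / 2)) /
        tmix (G n) q θ (x0 n) (μ n) (1 / 2) := by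
    field_simp
  rw [this, abs_div, abs_of_pos hTpos]
  calc _ ≤ W n / tmix (G n) q θ (x0 n) (μ n) (1 / 2) := by
        gcongr
        exact hdiff n h3
    _ ≤ _ := by
        gcongr

end Pool.Agent.W788.NV
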